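import Mathlib

set_option autoImplicit false

namespace Pool.Agent.Results.MP_fed0c4_co.Superlinear

/-- the ball of radius `r` about `v`, as a vertex set -/
def ballSet {V : Type} (G : SimpleGraph V) (v : V) (r : ℕ) : Set V := {x | G.dist v x ≤ r}

lemma root_mem {V : Type} (G : SimpleGraph V) (v : V) (r : ℕ) : v ∈ ballSet G v r := by
  show G.dist v v ≤ r
  rw [SimpleGraph.dist_self]
  exact Nat.zero_le r

/-- the rooted balls of radius `r` about `v` in `G` and about `w` in `H` (induced subgraphs)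
are isomorphic as rooted graphs -/
def SameBall {V W : Type} (G : SimpleGraph V) (v : V) (H : SimpleGraph W) (w : W) (r : ℕ) : Prop :=
  ∃ φ : G.induce (ballSet G v r) ≃g H.induce (ballSet H w r),
    φ ⟨v, root_mem G v r⟩ = ⟨w, root_mem H w r⟩

/-- a map inducing an isomorphism of balls -/
structure BM {V W : Type} (G : SimpleGraph V) (v : V) (H : SimpleGraph W) (w : W) (r : ℕ)
    (f : V → W) : Prop where
  root : f v = w
  adj : ∀ x y, G.dist v x ≤ r → G.dist v y ≤ r → (G.Adj x y ↔ H.Adj (f x) (f y))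
  inj : ∀ x y, G.dist v x ≤ r → G.dist v y ≤ r → f x = f y → x = y
  mem : ∀ x, G.dist v x ≤ r → H.dist w (f x) ≤ r
  surj : ∀ y, H.dist w y ≤ r → ∃ x, G.dist v x ≤ r ∧ f x = y

lemma SameBall.exists_map {V W : Type} {G : SimpleGraph V} {v : V} {H : SimpleGraph W} {w : W}
    {r : ℕ} (h : SameBall G v H w r) : ∃ f, BM G v H w r f := by
  classical
  obtain ⟨φ, hφ⟩ := h
  refine ⟨fun x => if h : G.dist v x ≤ r then (φ ⟨x, h⟩).1 else w, ?_, ?_, ?_, ?_, ?_⟩
  · have h0 : G.dist v v ≤ r := root_mem G v r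
    show (if h : G.dist v v ≤ r then (φ ⟨v, h⟩).1 else w) = w
    rw [dif_pos h0, hφ]
  · intro x y hx hy
    simp only [dif_pos hx, dif_pos hy]
    have := φ.map_adj_iff (v := ⟨x, hx⟩) (w := ⟨y, hy⟩)
    rw [SimpleGraph.comap_adj, SimpleGraph.comap_adj] at this
    exact this.symm
  · intro x y hx hy he
    simp only [dif_pos hx, dif_pos hy] at he
    have := φ.injective (Subtype.ext he)
    exact congrArg Subtype.val this
  · intro x hx
    simp only [dif_pos hx]
    exact (φ ⟨x, hx⟩).2
  · intro y hy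
    refine ⟨(φ.symm ⟨y, hy⟩).1, (φ.symm ⟨y, hy⟩).2, ?_⟩
    have h1 : G.dist v (φ.symm ⟨y, hy⟩).1 ≤ r := (φ.symm ⟨y, hy⟩).2
    simp only [dif_pos h1]
    show (φ (φ.symm ⟨y, hy⟩)).1 = y
    rw [RelIso.apply_symm_apply]

lemma BM.sameBall {V W : Type} {G : SimpleGraph V} {v : V} {H : SimpleGraph W} {w : W}
    {r : ℕ} {f : V → W} (h : BM G v H w r f) : SameBall G v H w r := by
  let e : ballSet G v r ≃ ballSet H w r := Equiv.ofBijective
    (fun x => ⟨f x.1, h.mem x.1 x.2⟩) (by
      constructor
      · intro x y hxy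
        exact Subtype.ext (h.inj x.1 y.1 x.2 y.2 (congrArg Subtype.val hxy))
      · rintro ⟨y, hy⟩
        obtain ⟨x, hx, hxy⟩ := h.surj y hy
        exact ⟨⟨x, hx⟩, Subtype.ext hxy⟩)
  refine ⟨⟨e, ?_⟩, ?_⟩
  · intro x y
    exact (h.adj x.1 y.1 x.2 y.2).symm
  · exact Subtype.ext h.root

lemma iso_dist_le {V : Type} {G : SimpleGraph V} {W : Type} {H : SimpleGraph W} (φ : G ≃g H)
    (x y : V) (h : G.Reachable x y) : H.dist (φ x) (φ y) ≤ G.dist x y := by
  obtain ⟨p, hp⟩ := h.exists_walk_length_eq_dist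
  have h1 := SimpleGraph.dist_le (p.map φ.toHom)
  rw [SimpleGraph.Walk.length_map, hp] at h1
  exact h1

lemma iso_dist {V : Type} {G : SimpleGraph V} {W : Type} {H : SimpleGraph W} (φ : G ≃g H) (x y : V) :
    H.dist (φ x) (φ y) = G.dist x y := by
  by_cases h : G.Reachable x y
  · apply le_antisymm (iso_dist_le φ x y h)
    have h2 := iso_dist_le φ.symm (φ x) (φ y) (φ.reachable_iff.2 h)
    rwa [RelIso.symm_apply_apply, RelIso.symm_apply_apply] at h2
  · rw [SimpleGraph.dist_eq_zero_of_not_reachable h,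
      SimpleGraph.dist_eq_zero_of_not_reachable (fun h2 => h (φ.reachable_iff.1 h2))]

lemma BM.transport {V W : Type} {G : SimpleGraph V} {v : V} {H : SimpleGraph W} {w : W}
    {r : ℕ} {f : V → W} (h : BM G v H w r f) (θ : G ≃g G) (ψ : H ≃g H) :
    BM G (θ v) H (ψ w) r (fun x => ψ (f (θ.symm x))) := by
  have hd : ∀ x, G.dist (θ v) x = G.dist v (θ.symm x) := by
    intro x
    have := iso_dist θ v (θ.symm x)
    rwa [RelIso.apply_symm_apply] at this
  refine ⟨?_, ?_, ?_, ?_, ?_⟩
  · show ψ (f (θ.symm (θ v))) = ψ w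
    rw [RelIso.symm_apply_apply, h.root]
  · intro x y hx hy
    rw [hd] at hx hy
    rw [ψ.map_adj_iff, ← h.adj _ _ hx hy, θ.symm.map_adj_iff]
  · intro x y hx hy he
    rw [hd] at hx hy
    have := h.inj _ _ hx hy (ψ.injective he)
    exact θ.symm.injective this
  · intro x hx
    rw [hd] at hx
    rw [iso_dist]
    exact h.mem _ hx
  · intro y hy
    have h1 : H.dist w (ψ.symm y) ≤ r := by
      have := iso_dist ψ w (ψ.symm y)
      rw [RelIso.apply_symm_apply] at this
      omega
    obtain ⟨x, hx, hxy⟩ := h.surj _ h1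
    refine ⟨θ x, ?_, ?_⟩
    · rw [hd, RelIso.symm_apply_apply]; exact hx
    · show ψ (f (θ.symm (θ x))) = y
      rw [RelIso.symm_apply_apply, hxy, RelIso.apply_symm_apply]

/-! Cayley graphs -/

/-- a group with a finite symmetric generating system -/
structure CS (A : Type) [Group A] (n : ℕ) where
  gen : Fin n → A
  iv : Fin n → Fin n
  hiv : ∀ i, gen (iv i) = (gen i)⁻¹
  one : ∀ i, gen i ≠ 1
  inj : Function.Injective gen
  top : ∀ g : A, ∃ u : List (Fin n), (u.map gen).prod = g

namespace CS

variable {A : Type} [Group A] {n : ℕ} (S : CS A n)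

/-- value of a word -/
def ev (u : List (Fin n)) : A := (u.map S.gen).prod

lemma ev_nil : S.ev [] = 1 := rfl
lemma ev_cons (i : Fin n) (u : List (Fin n)) : S.ev (i :: u) = S.gen i * S.ev u := by
  unfold ev; rw [List.map_cons, List.prod_cons]
lemma ev_append (u v : List (Fin n)) : S.ev (u ++ v) = S.ev u * S.ev v := by
  unfold ev; rw [List.map_append, List.prod_append]

/-- the Cayley graph: `g` is adjacent to `gen i * g` -/
def Cay : SimpleGraph A where
  Adj g h := ∃ i, h = S.gen i * g
  symm := ⟨fun g h ⟨i, hi⟩ => ⟨S.iv i, by rw [hi, S.hiv, inv_mul_cancel_left]⟩⟩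
  loopless := ⟨fun g ⟨i, hi⟩ => S.one i (by
    have : 1 * g = S.gen i * g := by rw [one_mul]; exact hi
    exact (mul_right_cancel this).symm)⟩

lemma adj_iff {g h : A} : S.Cay.Adj g h ↔ ∃ i, h = S.gen i * g := Iff.rfl

/-- right translation -/
def rm (a : A) : S.Cay ≃g S.Cay where
  toEquiv := Equiv.mulRight a
  map_rel_iff' := by
    intro g h
    rw [adj_iff, adj_iff]
    show (∃ i, h * a = S.gen i * (g * a)) ↔ _
    simp only [← mul_assoc, mul_left_inj]

lemma rm_apply (a g : A) : S.rm a g = g * a := rfl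

lemma trans (g h : A) : ∃ φ : S.Cay ≃g S.Cay, φ g = h :=
  ⟨S.rm (g⁻¹ * h), by rw [rm_apply, mul_inv_cancel_left]⟩

lemma reach (u : List (Fin n)) (a : A) : S.Cay.Reachable a (S.ev u * a) := by
  induction u with
  | nil => rw [ev_nil, one_mul]
  | cons i u ih =>
    refine ih.trans (SimpleGraph.Adj.reachable ?_)
    rw [ev_cons, mul_assoc]
    exact ⟨i, rfl⟩

lemma conn : S.Cay.Connected := by
  have hne : Nonempty A := ⟨1⟩
  refine ⟨fun a b => ?_⟩
  obtain ⟨u, hu⟩ := S.top (b * a⁻¹)
  have := S.reach u a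
  unfold ev at this
  rwa [hu, inv_mul_cancel_right] at this

lemma walk_word {a b : A} (p : S.Cay.Walk a b) : ∃ u : List (Fin n), u.length = p.length ∧
    S.ev u * a = b := by
  induction p with
  | nil => exact ⟨[], rfl, one_mul _⟩
  | cons h p ih =>
    obtain ⟨u, h1, h2⟩ := ih
    obtain ⟨i, hi⟩ := S.adj_iff.1 h
    refine ⟨u ++ [i], ?_, ?_⟩
    · rw [List.length_append, List.length_singleton, SimpleGraph.Walk.length_cons, h1]
    · rw [ev_append, ev_cons, ev_nil, mul_one, mul_assoc, ← hi, h2]

lemma dist_word (g : A) : ∃ u : List (Fin n), u.length = S.Cay.dist 1 g ∧ S.ev u = g := by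
  obtain ⟨p, hp⟩ := S.conn.exists_walk_length_eq_dist 1 g
  obtain ⟨u, h1, h2⟩ := S.walk_word p
  exact ⟨u, by rw [h1, hp], by rwa [mul_one] at h2⟩

lemma dist_ev (u : List (Fin n)) : S.Cay.dist 1 (S.ev u) ≤ u.length := by
  induction u with
  | nil => rw [ev_nil, SimpleGraph.dist_self]; exact Nat.zero_le _
  | cons i u ih =>
    have h1 := S.conn.dist_triangle (u := 1) (v := S.ev u) (w := S.ev (i :: u))
    have h2 : S.Cay.Adj (S.ev u) (S.ev (i :: u)) := ⟨i, S.ev_cons i u⟩
    have h3 := SimpleGraph.dist_eq_one_iff_adj.2 h2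
    rw [List.length_cons]
    omega

lemma dist_gen_mul (i : Fin n) (g : A) : S.Cay.dist 1 (S.gen i * g) ≤ S.Cay.dist 1 g + 1 := by
  have h1 := S.conn.dist_triangle (u := 1) (v := g) (w := S.gen i * g)
  have h2 : S.Cay.Adj g (S.gen i * g) := ⟨i, rfl⟩
  have h3 := SimpleGraph.dist_eq_one_iff_adj.2 h2
  omega

/-- the link of the root, as a relation on indices -/
def link (i j : Fin n) : Prop := ∃ k, S.gen j = S.gen k * S.gen i

end CS

section Local

variable {A : Type} [Group A] {n : ℕ} (S : CS A n) {W : Type} (H : SimpleGraph W)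

/-- labelled neighbourhoods -/
def IsStep (w : W) (e : Fin n → W) : Prop :=
  Function.Injective e ∧ (∀ u, H.Adj w u ↔ ∃ i, e i = u) ∧
    (∀ i j, H.Adj (e i) (e j) ↔ S.link i j)

/-- rigidity of the link -/
def Rigid : Prop := ∀ f : Fin n → Fin n, Function.Bijective f →
  (∀ i j, S.link (f i) (f j) ↔ S.link i j) → f = id

variable {S H}

lemma IsStep.uniq (hr : Rigid S) {w : W} {e e' : Fin n → W} (h : IsStep S H w e)
    (h' : IsStep S H w e') : e = e' := by
  have h1 : ∀ i, ∃ j, e' j = e i := fun i => (h'.2.1 (e i)).1 ((h.2.1 (e i)).2 ⟨i, rfl⟩)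
  choose f hf using h1
  have hinj : Function.Injective f := by
    intro i j hij
    apply h.1
    rw [← hf, ← hf, hij]
  have hbij : Function.Bijective f := Finite.injective_iff_bijective.1 hinj
  have : f = id := hr f hbij (by
    intro i j
    rw [← h'.2.2, hf, hf, h.2.2])
  funext i
  rw [← hf, this]
  rfl

lemma BM.dist_le {r : ℕ} {w : W} {f : A → W} (hH : H.Connected) (h : BM S.Cay 1 H w r f)
    (u : List (Fin n)) (hu : u.length ≤ r) : H.dist w (f (S.ev u)) ≤ u.length := by
  induction u with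
  | nil => rw [CS.ev_nil, h.root, SimpleGraph.dist_self]; exact Nat.zero_le _
  | cons i u ih =>
    rw [List.length_cons] at hu ⊢
    have h1 := ih (by omega)
    have h2 : H.Adj (f (S.ev u)) (f (S.ev (i :: u))) := by
      rw [← h.adj]
      · exact ⟨i, S.ev_cons i u⟩
      · exact (S.dist_ev u).trans (by omega)
      · exact (S.dist_ev _).trans (by rw [List.length_cons]; omega)
    have h3 := hH.dist_triangle (u := w) (v := f (S.ev u)) (w := f (S.ev (i :: u)))
    have h4 := SimpleGraph.dist_eq_one_iff_adj.2 h2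
    omega

lemma BM.isStep {r : ℕ} {w : W} {f : A → W} (hH : H.Connected) (h : BM S.Cay 1 H w r f)
    {g : A} (hg : S.Cay.dist 1 g + 1 ≤ r) : IsStep S H (f g) (fun i => f (S.gen i * g)) := by
  have hd : ∀ i, S.Cay.dist 1 (S.gen i * g) ≤ r := fun i => (S.dist_gen_mul i g).trans hg
  have hg' : S.Cay.dist 1 g ≤ r := by omega
  refine ⟨?_, ?_, ?_⟩
  · intro i j hij
    exact S.inj (mul_right_cancel (h.inj _ _ (hd i) (hd j) hij))
  · intro u
    constructor
    · intro hu
      obtain ⟨v, hv, hv'⟩ := S.dist_word g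
      have h1 := h.dist_le hH v (by omega)
      rw [hv', hv] at h1
      have h2 := hH.dist_triangle (u := w) (v := f g) (w := u)
      have h3 := SimpleGraph.dist_eq_one_iff_adj.2 hu
      obtain ⟨x, hx, hxu⟩ := h.surj u (by omega)
      rw [← hxu, ← h.adj _ _ hg' hx] at hu
      obtain ⟨i, hi⟩ := hu
      exact ⟨i, by rw [← hxu, hi]⟩
    · rintro ⟨i, rfl⟩
      rw [← h.adj _ _ hg' (hd i)]
      exact ⟨i, rfl⟩
  · intro i j
    rw [← h.adj _ _ (hd i) (hd j), CS.adj_iff]
    unfold CS.link
    simp only [← mul_assoc, mul_left_inj]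

/-- the local structure turned into an action of words -/
structure Act (S : CS A n) (H : SimpleGraph W) (r : ℕ) where
  P : Fin n → Equiv.Perm W
  step : ∀ w, IsStep S H w (fun i => P i w)
  rel : ∀ u v : List (Fin n), u.length ≤ r → v.length ≤ r → S.ev u = S.ev v →
    (u.map P).prod = (v.map P).prod
  free : ∀ (u : List (Fin n)) (w : W), u.length ≤ r → (u.map P).prod w = w → S.ev u = 1

lemma exists_act {r : ℕ} (hH : H.Connected) (hr : Rigid S) (h2 : 2 ≤ r)
    (hB : ∀ w, ∃ f, BM S.Cay 1 H w r f) : Nonempty (Act S H r) := by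
  choose f hf using hB
  have h0 : ∀ w, IsStep S H w (fun i => f w (S.gen i)) := by
    intro w
    have h := (hf w).isStep hH (g := 1) (by rw [SimpleGraph.dist_self]; omega)
    rw [(hf w).root] at h
    simpa only [mul_one] using h
  set σ : Fin n → W → W := fun i w => f w (S.gen i) with hσ
  -- words of bounded length
  have hw : ∀ (u : List (Fin n)), u.length ≤ r → ∀ w,
      f w (S.ev u) = u.foldr (fun i x => σ i x) w := by
    intro u
    induction u with
    | nil => intro _ w; exact (hf w).root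
    | cons i u ih =>
      intro hu w
      rw [List.length_cons] at hu
      have h1 := (hf w).isStep hH (g := S.ev u) (by have := S.dist_ev u; omega)
      have h3 := h1.uniq hr (h0 (f w (S.ev u)))
      have h4 := congrFun h3 i
      rw [S.ev_cons, List.foldr_cons, ← ih (by omega)]
      exact h4
  have hiv2 : ∀ i, S.iv (S.iv i) = i := fun i => S.inj (by rw [S.hiv, S.hiv, inv_inv])
  have hσσ : ∀ i w, σ (S.iv i) (σ i w) = w := by
    intro i w
    have h1 := hw [S.iv i, i] (by simpa using h2) w
    have h3 : S.ev [S.iv i, i] = 1 := by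
      rw [S.ev_cons, S.ev_cons, S.ev_nil, mul_one, S.hiv, inv_mul_cancel]
    rw [h3, (hf w).root] at h1
    exact h1.symm
  let P : Fin n → Equiv.Perm W := fun i =>
    ⟨σ i, σ (S.iv i), hσσ i, fun w => by
      have := hσσ (S.iv i) w
      rwa [hiv2] at this⟩
  have hP : ∀ (u : List (Fin n)) (w : W), (u.map P).prod w = u.foldr (fun i x => σ i x) w := by
    intro u w
    induction u with
    | nil => rfl
    | cons i u ih =>
      rw [List.map_cons, List.prod_cons, Equiv.Perm.mul_apply, ih, List.foldr_cons]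
      rfl
  refine ⟨⟨P, h0, ?_, ?_⟩⟩
  · intro u v hu hv huv
    ext w
    rw [hP, hP, ← hw u hu, ← hw v hv, huv]
  · intro u w hu he
    rw [hP, ← hw u hu] at he
    have h1 : f w (S.ev u) = f w 1 := by rw [he, (hf w).root]
    apply (hf w).inj _ _ _ _ h1
    · exact (S.dist_ev u).trans hu
    · rw [SimpleGraph.dist_self]; exact Nat.zero_le _

lemma Act.aut {r : ℕ} (a : Act S H r) (hr : Rigid S) (ψ : H ≃g H) (i : Fin n) (w : W) :
    ψ (a.P i w) = a.P i (ψ w) := by
  have h1 : IsStep S H (ψ w) (fun i => ψ (a.P i w)) := by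
    have h := a.step w
    refine ⟨ψ.injective.comp h.1, ?_, ?_⟩
    · intro u
      have h3 := h.2.1 (ψ.symm u)
      rw [← ψ.map_adj_iff, RelIso.apply_symm_apply] at h3
      rw [h3]
      constructor
      · rintro ⟨i, hi⟩
        exact ⟨i, by
          show ψ (a.P i w) = u
          have : a.P i w = ψ.symm u := hi
          rw [this, RelIso.apply_symm_apply]⟩
      · rintro ⟨i, hi⟩
        exact ⟨i, by
          have : ψ (a.P i w) = u := hi
          rw [← this, RelIso.symm_apply_apply]⟩
    · intro i j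
      rw [ψ.map_adj_iff]
      exact h.2.2 i j
  exact congrFun (h1.uniq hr (a.step (ψ w))) i

lemma Act.aut_word {r : ℕ} (a : Act S H r) (hr : Rigid S) (ψ : H ≃g H) (u : List (Fin n)) (w : W) :
    ψ ((u.map a.P).prod w) = (u.map a.P).prod (ψ w) := by
  induction u generalizing w with
  | nil => rfl
  | cons i u ih =>
    rw [List.map_cons, List.prod_cons, Equiv.Perm.mul_apply, Equiv.Perm.mul_apply, a.aut hr, ih]

lemma Act.walk_word {r : ℕ} (a : Act S H r) {x y : W} (p : H.Walk x y) :
    ∃ u : List (Fin n), u.length = p.length ∧ (u.map a.P).prod x = y := by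
  induction p with
  | nil => exact ⟨[], rfl, rfl⟩
  | @cons x z y h p ih =>
    obtain ⟨u, h1, h2⟩ := ih
    obtain ⟨i, hi⟩ := ((a.step x).2.1 z).1 h
    refine ⟨u ++ [i], ?_, ?_⟩
    · rw [List.length_append, List.length_singleton, SimpleGraph.Walk.length_cons, h1]
    · rw [List.map_append, List.prod_append, Equiv.Perm.mul_apply]
      have : (List.map a.P [i]).prod x = z := by
        rw [List.map_cons, List.map_nil, List.prod_singleton]; exact hi
      rw [this, h2]

end Local


section cox

variable {G : Type} [Group G]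

/-- Coxeter relations of type A for the first `k` elements of a sequence -/
structure Cox (s : ℕ → G) (k : ℕ) : Prop where
  sq : ∀ i, i < k → s i * s i = 1
  br : ∀ i, i + 1 < k → s i * s (i + 1) * s i = s (i + 1) * s i * s (i + 1)
  cm : ∀ i j, i + 2 ≤ j → j < k → s i * s j = s j * s i

lemma Cox.mono {s : ℕ → G} {k l : ℕ} (h : Cox s k) (hl : l ≤ k) : Cox s l :=
  ⟨fun i hi => h.sq i (by omega), fun i hi => h.br i (by omega),
    fun i j hij hj => h.cm i j hij (by omega)⟩

/-- descending products `s (j+l-1) * ... * s j` -/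
def T (s : ℕ → G) (j : ℕ) : ℕ → G
  | 0 => 1
  | l + 1 => s (j + l) * T s j l

lemma T_succ' (s : ℕ → G) (j l : ℕ) : T s j (l + 1) = T s (j + 1) l * s j := by
  induction l with
  | zero => show s (j + 0) * 1 = 1 * s j; rw [mul_one, one_mul, add_zero]
  | succ l ih =>
    show s (j + (l + 1)) * T s j (l + 1) = s (j + 1 + l) * T s (j + 1) l * s j
    rw [ih, mul_assoc]
    congr 2
    omega

lemma T_comm_low {s : ℕ → G} {k : ℕ} (h : Cox s k) {i j l : ℕ} (hij : i + 2 ≤ j)
    (hk : j + l ≤ k) : T s j l * s i = s i * T s j l := by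
  induction l with
  | zero => show 1 * s i = s i * 1; rw [one_mul, mul_one]
  | succ l ih =>
    show s (j + l) * T s j l * s i = s i * (s (j + l) * T s j l)
    rw [mul_assoc, ih (by omega), ← mul_assoc, ← mul_assoc, h.cm i (j + l) (by omega) (by omega)]

lemma T_comm_high {s : ℕ → G} {k : ℕ} (h : Cox s k) {i j l : ℕ} (hij : j + l + 1 ≤ i)
    (hk : i < k) : T s j l * s i = s i * T s j l := by
  induction l with
  | zero => show 1 * s i = s i * 1; rw [one_mul, mul_one]
  | succ l ih =>
    show s (j + l) * T s j l * s i = s i * (s (j + l) * T s j l)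
    rw [mul_assoc, ih (by omega), ← mul_assoc, ← mul_assoc, h.cm (j + l) i (by omega) (by omega)]

lemma T_mid {s : ℕ → G} {k : ℕ} (h : Cox s k) {i j l : ℕ} (hi : j < i) (hi' : i < j + l)
    (hk : j + l ≤ k) : T s j l * s i = s (i - 1) * T s j l := by
  induction l with
  | zero => omega
  | succ l ih =>
    by_cases hil : i < j + l
    · show s (j + l) * T s j l * s i = s (i - 1) * (s (j + l) * T s j l)
      rw [mul_assoc, ih hil (by omega), ← mul_assoc, ← mul_assoc,
        h.cm (i - 1) (j + l) (by omega) (by omega)]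
    · have hi2 : i = j + l := by omega
      subst hi2
      obtain ⟨m, rfl⟩ : ∃ m, l = m + 1 := ⟨l - 1, by omega⟩
      show s (j + (m + 1)) * (s (j + m) * T s j m) * s (j + (m + 1)) =
        s (j + (m + 1) - 1) * (s (j + (m + 1)) * (s (j + m) * T s j m))
      have e1 := T_comm_high h (i := j + (m + 1)) (j := j) (l := m) (by omega) (by omega)
      have e2 : j + (m + 1) - 1 = j + m := by omega
      have e3 := h.br (j + m) (by omega)
      have e4 : j + m + 1 = j + (m + 1) := by omega
      rw [e4] at e3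
      rw [e2]
      calc s (j + (m + 1)) * (s (j + m) * T s j m) * s (j + (m + 1))
          = s (j + (m + 1)) * s (j + m) * (T s j m * s (j + (m + 1))) := by simp only [mul_assoc]
        _ = s (j + (m + 1)) * s (j + m) * (s (j + (m + 1)) * T s j m) := by rw [e1]
        _ = (s (j + (m + 1)) * s (j + m) * s (j + (m + 1))) * T s j m := by simp only [mul_assoc]
        _ = (s (j + m) * s (j + (m + 1)) * s (j + m)) * T s j m := by rw [e3]
        _ = _ := by simp only [mul_assoc]

/-- the subgroup generated by the first `k` elements -/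
def CG (s : ℕ → G) (k : ℕ) : Subgroup G := Subgroup.closure {g | ∃ i, i < k ∧ s i = g}

lemma mem_CG (s : ℕ → G) {k i : ℕ} (hi : i < k) : s i ∈ CG s k :=
  Subgroup.subset_closure ⟨i, hi, rfl⟩

lemma CG_sub {s : ℕ → G} {k : ℕ} (h : Cox s (k + 1)) : ((CG s (k + 1) : Subgroup G) : Set G) ⊆
    ⋃ j ∈ Finset.range (k + 2), (fun x => x * T s j (k + 1 - j)) '' (CG s k : Set G) := by
  -- closure under right multiplication
  have key : ∀ x ∈ (⋃ j ∈ Finset.range (k + 2), (fun x => x * T s j (k + 1 - j)) ''
      (CG s k : Set G)), ∀ i, i < k + 1 → x * s i ∈ (⋃ j ∈ Finset.range (k + 2),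
      (fun x => x * T s j (k + 1 - j)) '' (CG s k : Set G)) := by
    intro x hx i hi
    simp only [Set.mem_iUnion, Finset.mem_range, Set.mem_image, exists_prop] at hx ⊢
    obtain ⟨j, hj, y, hy, rfl⟩ := hx
    have hj' : j ≤ k + 1 := by omega
    rcases lt_trichotomy i j with hij | hij | hij
    · by_cases hij2 : i + 1 = j
      · -- lengthen
        refine ⟨i, by omega, y, hy, ?_⟩
        have e : k + 1 - i = (k + 1 - j) + 1 := by omega
        rw [e, T_succ', ← hij2, ← mul_assoc]
      · refine ⟨j, hj, y * s i, ?_, ?_⟩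
        · exact (CG s k).mul_mem hy (mem_CG s (by omega))
        · rw [mul_assoc, mul_assoc, T_comm_low h (by omega) (by omega)]
    · subst hij
      -- shorten
      refine ⟨i + 1, by omega, y, hy, ?_⟩
      have e : k + 1 - i = (k + 1 - (i + 1)) + 1 := by omega
      rw [e, T_succ', mul_assoc, mul_assoc, h.sq i hi, mul_one]
    · refine ⟨j, hj, y * s (i - 1), ?_, ?_⟩
      · exact (CG s k).mul_mem hy (mem_CG s (by omega))
      · rw [mul_assoc, mul_assoc, T_mid h hij (by omega) (by omega)]
  have hinv : ∀ i, i < k + 1 → (s i)⁻¹ = s i := fun i hi => inv_eq_of_mul_eq_one_left (h.sq i hi)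
  intro x hx
  refine Subgroup.closure_induction_right (p := fun x _ => x ∈ (⋃ j ∈ Finset.range (k + 2),
      (fun x => x * T s j (k + 1 - j)) '' (CG s k : Set G))) ?_ ?_ ?_ hx
  · simp only [Set.mem_iUnion, Finset.mem_range, Set.mem_image, exists_prop]
    refine ⟨k + 1, by omega, 1, (CG s k).one_mem, ?_⟩
    rw [Nat.sub_self, one_mul]
    rfl
  · rintro x _ _ ⟨i, hi, rfl⟩ hx
    exact key x hx i hi
  · rintro x _ _ ⟨i, hi, rfl⟩ hx
    rw [hinv i hi]
    exact key x hx i hi

lemma CG_fin {s : ℕ → G} (k : ℕ) (h : Cox s k) :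
    ((CG s k : Subgroup G) : Set G).Finite ∧ ((CG s k : Subgroup G) : Set G).ncard ≤
      (k + 1).factorial := by
  induction k with
  | zero =>
    have : CG s 0 = ⊥ := by
      unfold CG
      rw [Subgroup.closure_eq_bot_iff]
      rintro x ⟨i, hi, -⟩
      omega
    rw [this]
    constructor
    · rw [Subgroup.coe_bot]; exact Set.finite_singleton 1
    · rw [Subgroup.coe_bot, Set.ncard_singleton]; decide
  | succ k ih =>
    obtain ⟨h1, h2⟩ := ih (h.mono (by omega))
    have hf : ∀ j, ((fun x => x * T s j (k + 1 - j)) '' (CG s k : Set G)).Finite :=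
      fun j => h1.image _
    have hU : (⋃ j ∈ Finset.range (k + 2), (fun x => x * T s j (k + 1 - j)) ''
        (CG s k : Set G)).Finite :=
      Set.Finite.biUnion (Finset.finite_toSet _) (fun j _ => hf j)
    refine ⟨hU.subset (CG_sub h), ?_⟩
    refine (Set.ncard_le_ncard (CG_sub h) hU).trans ?_
    have h3 : ∀ (t : Finset ℕ), (⋃ j ∈ t, (fun x => x * T s j (k + 1 - j)) ''
        (CG s k : Set G)).ncard ≤ t.card * (k + 1).factorial := by
      classical
      intro t
      induction t using Finset.induction_on with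
      | empty => simp
      | insert a t ha iht =>
        rw [Finset.set_biUnion_insert, Finset.card_insert_of_notMem ha, add_mul, one_mul]
        refine (Set.ncard_union_le _ _).trans ?_
        have h5 := (Set.ncard_image_le (f := fun x => x * T s a (k + 1 - a)) h1).trans h2
        have h6 := Nat.add_le_add iht h5
        rw [add_comm]
        exact h6
    have h4 := h3 (Finset.range (k + 2))
    rw [Finset.card_range] at h4
    rw [Nat.factorial_succ (k + 1)]
    exact h4

/-- adjacent transposition of `Fin (k+1)`, indexed by naturals -/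
def adj (k : ℕ) (i : ℕ) : Equiv.Perm (Fin (k + 1)) :=
  if h : i < k then Equiv.swap ⟨i, by omega⟩ ⟨i + 1, by omega⟩ else 1

lemma adj_cox (k : ℕ) : Cox (adj k) k := by
  refine ⟨?_, ?_, ?_⟩
  · intro i hi
    unfold adj
    rw [dif_pos hi, Equiv.swap_mul_self]
  · intro i hi
    unfold adj
    rw [dif_pos (by omega : i < k), dif_pos hi]
    have h1 : (⟨i, by omega⟩ : Fin (k + 1)) ≠ ⟨i + 1, by omega⟩ := by
      intro h; have := congrArg Fin.val h; simp at this
    have h2 : (⟨i, by omega⟩ : Fin (k + 1)) ≠ ⟨i + 1 + 1, by omega⟩ := by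
      intro h; have := congrArg Fin.val h; simp at this; omega
    have h3 : (⟨i + 1, by omega⟩ : Fin (k + 1)) ≠ ⟨i + 1 + 1, by omega⟩ := by
      intro h; have := congrArg Fin.val h; simp at this
    generalize (⟨i, by omega⟩ : Fin (k + 1)) = x at *
    generalize (⟨i + 1, by omega⟩ : Fin (k + 1)) = y at *
    generalize (⟨i + 1 + 1, by omega⟩ : Fin (k + 1)) = z at *
    have e1 : Equiv.swap x y * Equiv.swap y z * Equiv.swap x y = Equiv.swap x z := by
      have := Equiv.swap_apply_apply (Equiv.swap x y) y z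
      rw [Equiv.swap_apply_right, Equiv.swap_apply_of_ne_of_ne h2.symm h3.symm,
        Equiv.swap_inv] at this
      exact this.symm
    have e2 : Equiv.swap y z * Equiv.swap x y * Equiv.swap y z = Equiv.swap x z := by
      have := Equiv.swap_apply_apply (Equiv.swap y z) x y
      rw [Equiv.swap_apply_left, Equiv.swap_apply_of_ne_of_ne h1 h2, Equiv.swap_inv] at this
      exact this.symm
    rw [e1, e2]
  · intro i j hij hj
    unfold adj
    rw [dif_pos (by omega : i < k), dif_pos hj, Equiv.mul_swap_eq_swap_mul,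
      Equiv.swap_apply_of_ne_of_ne, Equiv.swap_apply_of_ne_of_ne]
    all_goals
      intro h
      have := congrArg Fin.val h
      simp at this
      omega

lemma adj_top (k : ℕ) : CG (adj k) k = ⊤ := by
  have h := Equiv.Perm.mclosure_swap_castSucc_succ k
  rw [eq_top_iff]
  intro x _
  have hx : x ∈ Submonoid.closure (Set.range fun i : Fin k => Equiv.swap i.castSucc i.succ) := by
    rw [h]; trivial
  have hle : Submonoid.closure (Set.range fun i : Fin k => Equiv.swap i.castSucc i.succ) ≤
      (CG (adj k) k).toSubmonoid := by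
    rw [Submonoid.closure_le]
    rintro _ ⟨i, rfl⟩
    have : adj k i = Equiv.swap i.castSucc i.succ := by
      unfold adj
      rw [dif_pos i.2]
      rfl
    show Equiv.swap i.castSucc i.succ ∈ CG (adj k) k
    rw [← this]
    exact mem_CG _ i.2
  exact hle hx

/-- the symmetric group has the Coxeter presentation -/
lemma exists_hom {s : ℕ → G} {k : ℕ} (h : Cox s k) :
    ∃ π : Equiv.Perm (Fin (k + 1)) →* G, ∀ i, i < k → π (adj k i) = s i := by
  classical
  set t : ℕ → Equiv.Perm (Fin (k + 1)) × G := fun i => (adj k i, s i) with ht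
  have hc : Cox t k := by
    have ha := adj_cox k
    refine ⟨?_, ?_, ?_⟩
    · intro i hi
      exact Prod.ext (ha.sq i hi) (h.sq i hi)
    · intro i hi
      exact Prod.ext (ha.br i hi) (h.br i hi)
    · intro i j hij hj
      exact Prod.ext (ha.cm i j hij hj) (h.cm i j hij hj)
  obtain ⟨h1, h2⟩ := CG_fin k hc
  let p1 : CG t k →* Equiv.Perm (Fin (k + 1)) := (MonoidHom.fst _ _).comp (CG t k).subtype
  have hfin : Finite (CG t k) := h1
  have hsurj : Function.Surjective p1 := by
    rw [← MonoidHom.range_eq_top, eq_top_iff, ← adj_top k]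
    unfold CG
    rw [Subgroup.closure_le]
    rintro _ ⟨i, hi, rfl⟩
    exact ⟨⟨t i, mem_CG t hi⟩, rfl⟩
  have hcard : Nat.card (CG t k) ≤ Nat.card (Equiv.Perm (Fin (k + 1))) := by
    have e : Nat.card (Equiv.Perm (Fin (k + 1))) = (k + 1).factorial := by
      rw [Nat.card_eq_fintype_card, Fintype.card_perm, Fintype.card_fin]
    rw [e]
    exact h2
  have hbij : Function.Bijective p1 := by
    have := Fintype.ofFinite (CG t k)
    rw [Nat.card_eq_fintype_card, Nat.card_eq_fintype_card] at hcard
    have hle := Fintype.card_le_of_surjective p1 hsurj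
    rw [Fintype.bijective_iff_surjective_and_card]
    exact ⟨hsurj, by omega⟩
  let e : CG t k ≃* Equiv.Perm (Fin (k + 1)) := MulEquiv.ofBijective p1 hbij
  refine ⟨((MonoidHom.snd _ _).comp (CG t k).subtype).comp e.symm.toMonoidHom, ?_⟩
  intro i hi
  have h3 : e.symm (adj k i) = ⟨t i, mem_CG t hi⟩ := by
    rw [MulEquiv.symm_apply_eq]
    rfl
  show (((e.symm (adj k i) : CG t k) : Equiv.Perm (Fin (k + 1)) × G)).2 = s i
  rw [h3]

/-- products of distinct adjacent transpositions in increasing order -/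
def cc (ε : ℕ → Bool) : ℕ → Equiv.Perm ℕ
  | 0 => 1
  | m + 1 => cc ε m * (if ε m then Equiv.swap m (m + 1) else 1)

lemma cc_congr {ε ε' : ℕ → Bool} {m : ℕ} (h : ∀ i, i < m → ε i = ε' i) : cc ε m = cc ε' m := by
  induction m with
  | zero => rfl
  | succ m ih =>
    show cc ε m * (if ε m then Equiv.swap m (m + 1) else 1) =
      cc ε' m * (if ε' m then Equiv.swap m (m + 1) else 1)
    rw [ih (fun i hi => h i (by omega)), h m (by omega)]

lemma cc_fix (ε : ℕ → Bool) {m x : ℕ} (h : m < x) : cc ε m x = x := by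
  induction m with
  | zero => rfl
  | succ m ih =>
    show cc ε m ((if ε m then Equiv.swap m (m + 1) else 1) x) = x
    split_ifs
    · rw [Equiv.swap_apply_of_ne_of_ne (by omega) (by omega)]
      exact ih (by omega)
    · exact ih (by omega)

/-- every permutation is conjugate to such a product -/
lemma normal_form (N : ℕ) : ∀ (α : Type) [Fintype α] [DecidableEq α], Fintype.card α = N + 1 →
    ∀ (σ : Equiv.Perm α) (x : α), ∃ (e : α → ℕ) (ε : ℕ → Bool), Function.Injective e ∧
      (∀ y, e y < N + 1) ∧ e x = N ∧ ∀ y, e (σ y) = cc ε N (e y) := by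
  induction N with
  | zero =>
    intro α _ _ hα σ x
    have hs : Subsingleton α := by
      rw [← Fintype.card_le_one_iff_subsingleton]; omega
    refine ⟨fun _ => 0, fun _ => false, fun a b _ => Subsingleton.elim a b,
      fun y => Nat.zero_lt_succ _, rfl, ?_⟩
    intro y
    rfl
  | succ N ih =>
    intro α _ _ hα σ x
    have hβ : Fintype.card {y : α // y ≠ x} = N + 1 := by
      rw [Fintype.card_subtype_compl, Fintype.card_subtype_eq]
      omega
    -- skip x
    set σ2 : Equiv.Perm α := Equiv.swap x (σ x) * σ with hσ2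
    have hx2 : σ2 x = x := by
      rw [hσ2, Equiv.Perm.mul_apply, Equiv.swap_apply_right]
    have hsub : ∀ y, σ2 y ≠ x ↔ y ≠ x := by
      intro y
      constructor
      · rintro h rfl; exact h hx2
      · intro h h2
        apply h
        apply σ2.injective
        rw [h2, hx2]
    have hsub' : ∀ y, (fun z => z ≠ x) y ↔ (fun z => z ≠ x) (σ2 y) := fun y => (hsub y).symm
    set σ3 : Equiv.Perm {y : α // y ≠ x} := σ2.subtypePerm (fun y => hsub y) with hσ3
    have h3 : ∀ y (hy : y ≠ x), ((σ3 ⟨y, hy⟩ : {y : α // y ≠ x}) : α) = σ2 y := fun y hy => rfl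
    by_cases hfix : σ x = x
    · have hne : Nonempty {y : α // y ≠ x} := by
        rw [← Fintype.card_pos_iff]; omega
      obtain ⟨x'⟩ := hne
      obtain ⟨e, ε, h4, h5, h6, h7⟩ := ih {y : α // y ≠ x} hβ σ3 x'
      have hσσ : ∀ y, σ2 y = σ y := by
        intro y
        rw [hσ2, hfix, Equiv.swap_self]
        rfl
      refine ⟨fun y => if h : y = x then N + 1 else e ⟨y, h⟩, fun i => if i = N then false else ε i,
        ?_, ?_, ?_, ?_⟩
      · intro a b hab
        dsimp only at hab
        split_ifs at hab with h1 h2 h2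
        · rw [h1, h2]
        · have := h5 ⟨b, h2⟩; omega
        · have := h5 ⟨a, h1⟩; omega
        · exact congrArg Subtype.val (h4 hab)
      · intro y
        dsimp only
        split_ifs with h1
        · omega
        · have := h5 ⟨y, h1⟩; omega
      · simp
      · intro y
        have hcc : cc (fun i => if i = N then false else ε i) (N + 1) = cc ε N := by
          show cc _ N * (if (if N = N then false else ε N) = true then _ else 1) = _
          rw [if_pos rfl]
          rw [cc_congr (ε' := ε) (fun i hi => if_neg (by omega))]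
          simp
        rw [hcc]
        by_cases hy : y = x
        · rw [hy, hfix]
          simp only [dif_pos]
          rw [cc_fix ε (by omega)]
        · have hσy : σ y ≠ x := by
            intro h
            apply hy
            apply σ.injective
            rw [h, hfix]
          simp only [dif_neg hy, dif_neg hσy]
          rw [← h7]
          congr 1
          apply Subtype.ext
          rw [h3, hσσ]
    · set y0 : α := σ.symm x with hy0
      have hσy0 : σ y0 = x := by rw [hy0, Equiv.apply_symm_apply]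
      have hy0x : y0 ≠ x := by
        intro h
        apply hfix
        rw [h] at hσy0
        exact hσy0
      obtain ⟨e, ε, h4, h5, h6, h7⟩ := ih {y : α // y ≠ x} hβ σ3 ⟨y0, hy0x⟩
      refine ⟨fun y => if h : y = x then N + 1 else e ⟨y, h⟩, fun i => if i = N then true else ε i,
        ?_, ?_, ?_, ?_⟩
      · intro a b hab
        dsimp only at hab
        split_ifs at hab with h1 h2 h2
        · rw [h1, h2]
        · have := h5 ⟨b, h2⟩; omega
        · have := h5 ⟨a, h1⟩; omega
        · exact congrArg Subtype.val (h4 hab)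
      · intro y
        dsimp only
        split_ifs with h1
        · omega
        · have := h5 ⟨y, h1⟩; omega
      · simp
      · intro y
        have hcc : cc (fun i => if i = N then true else ε i) (N + 1) =
            cc ε N * Equiv.swap N (N + 1) := by
          show cc _ N * (if (if N = N then true else ε N) = true then _ else 1) = _
          rw [if_pos rfl, if_pos rfl]
          rw [cc_congr (ε' := ε) (fun i hi => if_neg (by omega))]
        rw [hcc, Equiv.Perm.mul_apply]
        by_cases hy : y = x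
        · subst hy
          simp only [dif_pos, dif_neg hfix]
          rw [Equiv.swap_apply_right]
          have h8 := h7 ⟨y0, hy0x⟩
          rw [h6] at h8
          rw [← h8]
          congr 1
          apply Subtype.ext
          rw [h3, hσ2, Equiv.Perm.mul_apply, hσy0, Equiv.swap_apply_left]
        · by_cases hyy : y = y0
          · subst hyy
            simp only [hσy0, dif_pos, dif_neg hy]
            rw [h6, Equiv.swap_apply_left, cc_fix ε (by omega)]
          · have hσy : σ y ≠ x := by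
              intro h
              apply hyy
              apply σ.injective
              rw [h, hσy0]
            simp only [dif_neg hy, dif_neg hσy]
            have h8 : e ⟨y, hy⟩ ≠ N := by
              rw [← h6]
              intro h
              exact hyy (congrArg Subtype.val (h4 h))
            have h9 := h5 ⟨y, hy⟩
            rw [Equiv.swap_apply_of_ne_of_ne h8 (by omega), ← h7]
            congr 1
            apply Subtype.ext
            rw [h3, hσ2, Equiv.Perm.mul_apply, Equiv.swap_apply_of_ne_of_ne hσy]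
            intro h
            exact hy (σ.injective h)

end cox


open DihedralGroup


/-- generic pair of elements -/
structure Gen {A : Type} [Group A] (a b : A) : Prop where
  aa : a * a = 1
  a1 : a ≠ 1
  b1 : b ≠ 1
  ab : a ≠ b
  bb1 : b * b ≠ 1
  bba : b * b ≠ a
  bbb : b * b * b ≠ 1

section gens

variable {A : Type} [Group A] (a b : A)

/-- four values -/
def vl : Fin 4 → A := ![1, a, b, b⁻¹]

def gty : Fin 9 → Fin 4 := ![0, 0, 1, 2, 2, 2, 3, 3, 3]

def gfd : Fin 9 → DihedralGroup 3 := ![sr 0, sr 1, r 0, r 0, r 1, sr 0, r 0, r 2, sr 0]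

/-- nine generators -/
def gg (i : Fin 9) : A × DihedralGroup 3 := (vl a b (gty i), gfd i)

def giv : Fin 9 → Fin 9 := ![0, 1, 2, 6, 7, 8, 3, 4, 5]

/-- quotients of the four values -/
def dt : Fin 4 → Fin 4 → Option (Fin 4) :=
  ![![some 0, some 1, some 3, some 2], ![some 1, some 0, none, none],
    ![some 2, none, some 0, none], ![some 3, none, none, some 0]]

variable {a b}

lemma Gen.ai (h : Gen a b) : a⁻¹ = a := inv_eq_of_mul_eq_one_left h.aa

lemma Gen.vl_inj (h : Gen a b) : Function.Injective (vl a b) := by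
  have h1 := h.a1
  have h2 := h.b1
  have h3 := h.ab
  have h4 : b⁻¹ ≠ 1 := inv_ne_one.2 h2
  have h5 : a ≠ b⁻¹ := by
    intro e
    apply h3
    rw [← h.ai, e, inv_inv]
  have h6 : b ≠ b⁻¹ := by
    intro e
    apply h.bb1
    nth_rewrite 2 [e]
    exact mul_inv_cancel b
  intro i j hij
  fin_cases i <;> fin_cases j <;> first | rfl | (exfalso; simp [vl] at hij; first
    | exact h1 hij | exact h1 hij.symm | exact h2 hij | exact h2 hij.symm | exact h3 hij
    | exact h3 hij.symm | exact h4 hij | exact h4 hij.symm | exact h5 hij | exact h5 hij.symm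
    | exact h6 hij | exact h6 hij.symm)

lemma Gen.dt_iff (h : Gen a b) (t s u : Fin 4) :
    vl a b t * (vl a b s)⁻¹ = vl a b u ↔ dt t s = some u := by
  have hinj := h.vl_inj
  have key : ∀ v, vl a b t * (vl a b s)⁻¹ = vl a b v →
      (vl a b t * (vl a b s)⁻¹ = vl a b u ↔ some v = some u) := by
    intro v hv
    rw [hv]
    constructor
    · intro e; rw [hinj e]
    · intro e; rw [Option.some.inj e]
  have ai := h.ai
  have none_case : (∀ v, vl a b t * (vl a b s)⁻¹ ≠ vl a b v) →
      (vl a b t * (vl a b s)⁻¹ = vl a b u ↔ none = some u) := by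
    intro hn
    constructor
    · intro e; exact absurd e (hn u)
    · intro e; exact absurd e (by simp)
  fin_cases t <;> fin_cases s
  · exact key 0 (by simp [vl])
  · exact key 1 (by simp [vl, ai])
  · exact key 3 (by simp [vl])
  · exact key 2 (by simp [vl])
  · exact key 1 (by simp [vl])
  · exact key 0 (by simp [vl])
  · -- a b⁻¹
    refine none_case (fun v => ?_)
    fin_cases v
    · intro e
      have e : a * b⁻¹ = 1 := e
      exact h.ab (mul_inv_eq_one.1 e)
    · intro e
      have e : a * b⁻¹ = a := e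
      exact h.b1 (inv_eq_one.1 (mul_eq_left.1 e))
    · intro e
      have e : a * b⁻¹ = b := e
      exact h.bba (by rw [← mul_inv_eq_iff_eq_mul.1 e])
    · intro e
      have e : a * b⁻¹ = b⁻¹ := e
      exact h.a1 (mul_eq_right.1 e)
  · -- a b
    refine none_case (fun v => ?_)
    fin_cases v
    · intro e
      have e : a * b⁻¹⁻¹ = 1 := e
      rw [inv_inv] at e
      exact h.ab (by rw [← ai]; exact (eq_inv_of_mul_eq_one_right e).symm)
    · intro e
      have e : a * b⁻¹⁻¹ = a := e
      rw [inv_inv] at e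
      exact h.b1 (mul_eq_left.1 e)
    · intro e
      have e : a * b⁻¹⁻¹ = b := e
      rw [inv_inv] at e
      exact h.a1 (mul_eq_right.1 e)
    · intro e
      have e : a * b⁻¹⁻¹ = b⁻¹ := e
      rw [inv_inv] at e
      apply h.bba
      have e2 : a = b⁻¹ * b⁻¹ := eq_mul_inv_of_mul_eq e
      rw [← ai, e2]
      simp
  · exact key 2 (by simp [vl])
  · -- b a
    refine none_case (fun v => ?_)
    fin_cases v
    · intro e
      have e : b * a⁻¹ = 1 := e
      exact h.ab (mul_inv_eq_one.1 e).symm
    · intro e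
      have e : b * a⁻¹ = a := e
      rw [mul_inv_eq_iff_eq_mul, h.aa] at e
      exact h.b1 e
    · intro e
      have e : b * a⁻¹ = b := e
      exact h.a1 (inv_eq_one.1 (mul_eq_left.1 e))
    · intro e
      have e : b * a⁻¹ = b⁻¹ := e
      apply h.bba
      rw [mul_inv_eq_iff_eq_mul] at e
      nth_rewrite 2 [e]
      rw [mul_inv_cancel_left]
  · exact key 0 (by simp [vl])
  · -- b b
    refine none_case (fun v => ?_)
    fin_cases v
    · intro e
      have e : b * b⁻¹⁻¹ = 1 := e
      rw [inv_inv] at e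
      exact h.bb1 e
    · intro e
      have e : b * b⁻¹⁻¹ = a := e
      rw [inv_inv] at e
      exact h.bba e
    · intro e
      have e : b * b⁻¹⁻¹ = b := e
      rw [inv_inv] at e
      exact h.b1 (mul_eq_left.1 e)
    · intro e
      have e : b * b⁻¹⁻¹ = b⁻¹ := e
      rw [inv_inv] at e
      exact h.bbb (by rw [e, inv_mul_cancel])
  · exact key 3 (by simp [vl])
  · -- b⁻¹ a
    refine none_case (fun v => ?_)
    fin_cases v
    · intro e
      have e : b⁻¹ * a⁻¹ = 1 := e
      have e2 := mul_inv_eq_one.1 e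
      apply h.ab
      rw [← ai, ← e2, inv_inv]
    · intro e
      have e : b⁻¹ * a⁻¹ = a := e
      rw [mul_inv_eq_iff_eq_mul, h.aa] at e
      exact h.b1 (inv_eq_one.1 e)
    · intro e
      have e : b⁻¹ * a⁻¹ = b := e
      apply h.bba
      rw [ai] at e
      exact (inv_mul_eq_iff_eq_mul.1 e).symm
    · intro e
      have e : b⁻¹ * a⁻¹ = b⁻¹ := e
      exact h.a1 (inv_eq_one.1 (mul_eq_left.1 e))
  · -- b⁻¹ b⁻¹
    refine none_case (fun v => ?_)
    fin_cases v
    · intro e
      have e : b⁻¹ * b⁻¹ = 1 := e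
      rw [← mul_inv_rev, inv_eq_one] at e
      exact h.bb1 e
    · intro e
      have e : b⁻¹ * b⁻¹ = a := e
      rw [← mul_inv_rev, inv_eq_iff_eq_inv, ai] at e
      exact h.bba e
    · intro e
      have e : b⁻¹ * b⁻¹ = b := e
      apply h.bbb
      rw [← mul_inv_rev, inv_eq_iff_mul_eq_one] at e
      exact e
    · intro e
      have e : b⁻¹ * b⁻¹ = b⁻¹ := e
      exact h.b1 (inv_eq_one.1 (mul_eq_left.1 e))
  · exact key 0 (by simp [vl])

/-- the link as a table -/
def TT (i j : Fin 9) : Bool :=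
  match dt (gty j) (gty i) with
  | none => false
  | some u => decide (∃ k, gty k = u ∧ gfd k = gfd j * (gfd i)⁻¹)

lemma Gen.TT_iff (h : Gen a b) (i j : Fin 9) :
    (TT i j = true) ↔ ∃ k, gg a b j = gg a b k * gg a b i := by
  have e1 : ∀ k, gg a b j = gg a b k * gg a b i ↔
      (dt (gty j) (gty i) = some (gty k) ∧ gfd k = gfd j * (gfd i)⁻¹) := by
    intro k
    rw [← h.dt_iff, ← mul_inv_eq_iff_eq_mul]
    constructor
    · intro e
      exact ⟨congrArg Prod.fst e, (congrArg Prod.snd e).symm⟩
    · rintro ⟨e2, e3⟩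
      exact Prod.ext e2 e3.symm
  simp only [e1]
  unfold TT
  split
  · rename_i hd
    rw [hd]
    constructor
    · intro h2; exact absurd h2 (by decide)
    · rintro ⟨k, h2, -⟩; exact absurd h2 (by simp)
  · rename_i u hd
    rw [hd, decide_eq_true_iff]
    constructor
    · rintro ⟨k, h2, h3⟩; exact ⟨k, by rw [h2], h3⟩
    · rintro ⟨k, h2, h3⟩; exact ⟨k, (Option.some.inj h2).symm, h3⟩

/-- number of walks in the link -/
def wk : ℕ → Fin 9 → ℕ
  | 0, _ => 1
  | k + 1, i => ∑ j, if TT i j then wk k j else 0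

lemma wk_inj : ∀ i j, wk 3 i = wk 3 j → i = j := by decide +kernel

lemma wk_inv (f : Equiv.Perm (Fin 9)) (h : ∀ i j, TT (f i) (f j) = TT i j) (k : ℕ) (i : Fin 9) :
    wk k (f i) = wk k i := by
  induction k generalizing i with
  | zero => rfl
  | succ k ih =>
    show (∑ j, if TT (f i) j then wk k j else 0) = ∑ j, if TT i j then wk k j else 0
    rw [← Equiv.sum_comp f]
    apply Finset.sum_congr rfl
    intro j _
    rw [h, ih]

lemma gd_inj : ∀ i j, gty i = gty j → gfd i = gfd j → i = j := by decide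

lemma giv_spec : ∀ i, (gty i = 0 ∧ gty (giv i) = 0 ∨ gty i = 1 ∧ gty (giv i) = 1 ∨
    gty i = 2 ∧ gty (giv i) = 3 ∨ gty i = 3 ∧ gty (giv i) = 2) ∧
    gfd (giv i) = (gfd i)⁻¹ := by decide

lemma g_ne_one : ∀ i, ¬ (gty i = 0 ∧ gfd i = 1) := by decide

/-- the generating system -/
def Gen.toCS (h : Gen a b)
    (htop : ∀ g : A × DihedralGroup 3, ∃ u : List (Fin 9), (u.map (gg a b)).prod = g) :
    CS (A × DihedralGroup 3) 9 where
  gen := gg a b
  iv := giv
  hiv := by
    intro i
    obtain ⟨h1, h2⟩ := giv_spec i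
    apply Prod.ext
    · show vl a b (gty (giv i)) = (vl a b (gty i))⁻¹
      rcases h1 with ⟨e1, e2⟩ | ⟨e1, e2⟩ | ⟨e1, e2⟩ | ⟨e1, e2⟩
      · rw [e1, e2]; exact inv_one.symm
      · rw [e1, e2]; exact h.ai.symm
      · rw [e1, e2]; rfl
      · rw [e1, e2]; exact (inv_inv b).symm
    · exact h2
  one := by
    intro i hi
    apply g_ne_one i
    refine ⟨?_, congrArg Prod.snd hi⟩
    apply h.vl_inj
    exact congrArg Prod.fst hi
  inj := by
    intro i j hij
    exact gd_inj i j (h.vl_inj (congrArg Prod.fst hij)) (congrArg Prod.snd hij)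
  top := htop

lemma Gen.rigid (h : Gen a b)
    (htop : ∀ g : A × DihedralGroup 3, ∃ u : List (Fin 9), (u.map (gg a b)).prod = g) :
    Rigid (h.toCS htop) := by
  intro f hf hl
  have h2 : ∀ i j, TT (f i) (f j) = TT i j := by
    intro i j
    have h3 : (∃ k, gg a b (f j) = gg a b k * gg a b (f i)) ↔ ∃ k, gg a b j = gg a b k * gg a b i :=
      hl i j
    rw [← h.TT_iff, ← h.TT_iff] at h3
    exact Bool.eq_iff_iff.2 h3
  funext i
  have h3 := wk_inv (Equiv.ofBijective f hf) h2 3 i
  exact wk_inj _ _ h3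

end gens



/-- partial products -/
def pr {G : Type} [Group G] (s : ℕ → G) (ε : ℕ → Bool) : ℕ → G
  | 0 => 1
  | m + 1 => pr s ε m * (if ε m then s m else 1)

lemma pr_map {G G' : Type} [Group G] [Group G'] (π : G →* G') {s : ℕ → G} {s' : ℕ → G'}
    {m : ℕ} (h : ∀ i, i < m → π (s i) = s' i) (ε : ℕ → Bool) : π (pr s ε m) = pr s' ε m := by
  induction m with
  | zero => exact map_one π
  | succ m ih =>
    show π (pr s ε m * (if ε m then s m else 1)) = pr s' ε m * (if ε m then s' m else 1)
    rw [map_mul, ih (fun i hi => h i (by omega))]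
    split_ifs
    · rw [h m (by omega)]
    · rw [map_one]

lemma adj_val (k : ℕ) {i : ℕ} (hi : i < k) (y : Fin (k + 1)) :
    ((adj k i y : Fin (k + 1)) : ℕ) = Equiv.swap i (i + 1) (y : ℕ) := by
  unfold adj
  rw [dif_pos hi]
  by_cases h1 : (y : ℕ) = i
  · have : y = ⟨i, by omega⟩ := Fin.ext h1
    rw [this, Equiv.swap_apply_left, Equiv.swap_apply_left]
  · by_cases h2 : (y : ℕ) = i + 1
    · have : y = ⟨i + 1, by omega⟩ := Fin.ext h2
      rw [this, Equiv.swap_apply_right, Equiv.swap_apply_right]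
    · rw [Equiv.swap_apply_of_ne_of_ne (fun e => h1 (congrArg Fin.val e))
        (fun e => h2 (congrArg Fin.val e)), Equiv.swap_apply_of_ne_of_ne h1 h2]

lemma pr_val (k : ℕ) (ε : ℕ → Bool) {m : ℕ} (hm : m ≤ k) (y : Fin (k + 1)) :
    ((pr (adj k) ε m y : Fin (k + 1)) : ℕ) = cc ε m (y : ℕ) := by
  induction m generalizing y with
  | zero => rfl
  | succ m ih =>
    show (((pr (adj k) ε m * (if ε m then adj k m else 1)) y : Fin (k + 1)) : ℕ) =
      (cc ε m * (if ε m then Equiv.swap m (m + 1) else 1)) (y : ℕ)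
    rw [Equiv.Perm.mul_apply, Equiv.Perm.mul_apply, ih (by omega)]
    split_ifs
    · rw [adj_val k (by omega)]
    · rfl

lemma conj_form (k : ℕ) (σ : Equiv.Perm (Fin (k + 1))) : ∃ (τ : Equiv.Perm (Fin (k + 1)))
    (ε : ℕ → Bool), τ * σ * τ⁻¹ = pr (adj k) ε k := by
  obtain ⟨e, ε, h1, h2, -, h4⟩ := normal_form k (Fin (k + 1)) (Fintype.card_fin _) σ 0
  have hinj : Function.Injective (fun y : Fin (k + 1) => (⟨e y, h2 y⟩ : Fin (k + 1))) := by
    intro a b hab
    exact h1 (congrArg Fin.val hab)
  refine ⟨Equiv.ofBijective _ (Finite.injective_iff_bijective.1 hinj), ε, ?_⟩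
  rw [mul_inv_eq_iff_eq_mul]
  ext y
  show e (σ y) = ((pr (adj k) ε k ⟨e y, h2 y⟩ : Fin (k + 1)) : ℕ)
  rw [pr_val k ε le_rfl, h4]

/-- rotation -/
def rot (k : ℕ) : Equiv.Perm (Fin (k + 1)) := finRotate (k + 1)

lemma rot_lt {k i : ℕ} (hi : i < k) : rot k ⟨i, by omega⟩ = ⟨i + 1, by omega⟩ :=
  finRotate_of_lt hi

lemma rot_conj {k i : ℕ} (hi : i + 1 < k) : rot k * adj k i * (rot k)⁻¹ = adj k (i + 1) := by
  unfold adj
  rw [dif_pos (by omega : i < k), dif_pos hi, ← Equiv.swap_apply_apply,
    rot_lt (by omega : i < k), rot_lt (by omega : i + 1 < k)]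

lemma rot_pow_conj {k i : ℕ} (hi : i < k) :
    rot k ^ i * adj k 0 * (rot k)⁻¹ ^ i = adj k i := by
  induction i with
  | zero => simp
  | succ i ih =>
    rw [← rot_conj (by omega), ← ih (by omega), pow_succ', pow_succ]
    simp only [mul_assoc]

lemma genSym {k : ℕ} (hk : 4 ≤ k) : Gen (adj k 0) (rot k) := by
  have h0 : rot k ⟨0, by omega⟩ = ⟨1, by omega⟩ := rot_lt (by omega)
  have h1 : rot k ⟨1, by omega⟩ = ⟨2, by omega⟩ := rot_lt (by omega)
  have h2 : rot k ⟨2, by omega⟩ = ⟨3, by omega⟩ := rot_lt (by omega)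
  have a0 : adj k 0 ⟨0, by omega⟩ = ⟨1, by omega⟩ := by
    unfold adj
    rw [dif_pos (by omega : 0 < k), Equiv.swap_apply_left]
  have a1 : adj k 0 ⟨1, by omega⟩ = ⟨0, by omega⟩ := by
    unfold adj
    rw [dif_pos (by omega : 0 < k), Equiv.swap_apply_right]
  have ne : ∀ {i j : ℕ} (hi : i < k + 1) (hj : j < k + 1), i ≠ j →
      (⟨i, hi⟩ : Fin (k + 1)) ≠ ⟨j, hj⟩ := by
    intro i j hi hj hij h
    exact hij (congrArg Fin.val h)
  refine ⟨(adj_cox k).sq 0 (by omega), ?_, ?_, ?_, ?_, ?_, ?_⟩
  · intro h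
    rw [h] at a0
    exact ne _ _ (by omega) a0
  · intro h
    rw [h] at h0
    exact ne _ _ (by omega) h0
  · intro h
    rw [h, h1] at a1
    exact ne _ _ (by omega) a1
  · intro h
    have h3 : (rot k * rot k) ⟨0, by omega⟩ = ⟨2, by omega⟩ := by
      rw [Equiv.Perm.mul_apply, h0, h1]
    rw [h] at h3
    exact ne _ _ (by omega) h3
  · intro h
    have h3 : (rot k * rot k) ⟨0, by omega⟩ = ⟨2, by omega⟩ := by
      rw [Equiv.Perm.mul_apply, h0, h1]
    rw [h, a0] at h3
    exact ne _ _ (by omega) h3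
  · intro h
    have h3 : (rot k * rot k * rot k) ⟨0, by omega⟩ = ⟨3, by omega⟩ := by
      rw [Equiv.Perm.mul_apply, Equiv.Perm.mul_apply, h0, h1, h2]
    rw [h] at h3
    exact ne _ _ (by omega) h3

/-- word for a conjugate of the involution -/
def Wd (i : ℕ) : List (Fin 9) := List.replicate i 3 ++ ([2] ++ List.replicate i 6)

lemma Wd_length (i : ℕ) : (Wd i).length = 2 * i + 1 := by
  unfold Wd
  simp only [List.length_append, List.length_replicate, List.length_singleton]
  omega

lemma Wd_prod {G : Type} [Group G] (P : Fin 9 → G) (i : ℕ) :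
    ((Wd i).map P).prod = P 3 ^ i * (P 2 * P 6 ^ i) := by
  unfold Wd
  simp only [List.map_append, List.prod_append, List.map_replicate, List.prod_replicate,
    List.map_cons, List.map_nil, List.prod_singleton]

/-- word for a product of distinct conjugates in increasing order -/
def Ud (ε : ℕ → Bool) : ℕ → List (Fin 9)
  | 0 => []
  | m + 1 => Ud ε m ++ ((if ε m then [2] else []) ++ [3])

lemma Ud_length (ε : ℕ → Bool) (m : ℕ) : (Ud ε m).length ≤ 2 * m := by
  induction m with
  | zero => exact le_rfl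
  | succ m ih =>
    show (Ud ε m ++ ((if ε m then [2] else []) ++ [3])).length ≤ 2 * (m + 1)
    split_ifs
    · simp only [List.length_append, List.length_singleton]; omega
    · simp only [List.length_append, List.length_singleton, List.length_nil]; omega

lemma Ud_prod {G : Type} [Group G] (P : Fin 9 → G) (h : P 6 = (P 3)⁻¹) (ε : ℕ → Bool) (m : ℕ) :
    ((Ud ε m).map P).prod = pr (fun i => ((Wd i).map P).prod) ε m * P 3 ^ m := by
  induction m with
  | zero => simp [Ud, pr]
  | succ m ih =>
    show ((Ud ε m ++ ((if ε m then [2] else []) ++ [3])).map P).prod =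
      pr (fun i => ((Wd i).map P).prod) ε m * (if ε m then ((Wd m).map P).prod else 1) *
        P 3 ^ (m + 1)
    rw [List.map_append, List.prod_append, ih]
    split_ifs
    · rw [Wd_prod, h]
      simp only [List.map_append, List.prod_append, List.map_cons, List.map_nil,
        List.prod_singleton, pow_succ, mul_assoc, inv_pow]
      rw [inv_mul_cancel_left]
    · simp only [List.map_append, List.prod_append, List.map_cons, List.map_nil,
        List.prod_singleton, List.prod_nil, one_mul, mul_one, pow_succ, mul_assoc]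

lemma gg_val {k : ℕ} : gg (adj k 0) (rot k) 2 = (adj k 0, 1) ∧
    gg (adj k 0) (rot k) 3 = (rot k, 1) ∧ gg (adj k 0) (rot k) 6 = ((rot k)⁻¹, 1) :=
  ⟨rfl, rfl, rfl⟩

lemma gg_inv {k : ℕ} : gg (adj k 0) (rot k) 6 = (gg (adj k 0) (rot k) 3)⁻¹ := by
  rw [gg_val.2.1, gg_val.2.2]
  exact Prod.ext rfl inv_one.symm

lemma Wd_gg {k i : ℕ} (hi : i < k) :
    ((Wd i).map (gg (adj k 0) (rot k))).prod = (adj k i, 1) := by
  rw [Wd_prod, gg_val.1, gg_val.2.1, gg_val.2.2, ← rot_pow_conj hi]
  apply Prod.ext
  · show (rot k ^ i) * (adj k 0 * (rot k)⁻¹ ^ i) = _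
    rw [mul_assoc]
  · show (1 : DihedralGroup 3) ^ i * (1 * 1 ^ i) = 1
    rw [one_pow, one_mul, one_mul]

/-- values of words -/
def rg (k : ℕ) : Submonoid (Equiv.Perm (Fin (k + 1)) × DihedralGroup 3) where
  carrier := {g | ∃ u : List (Fin 9), (u.map (gg (adj k 0) (rot k))).prod = g}
  one_mem' := ⟨[], rfl⟩
  mul_mem' := by
    rintro _ _ ⟨u, rfl⟩ ⟨v, rfl⟩
    exact ⟨u ++ v, by rw [List.map_append, List.prod_append]⟩

lemma all_rg {k : ℕ} (hk : 1 ≤ k) (g : Equiv.Perm (Fin (k + 1)) × DihedralGroup 3) :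
    ∃ u : List (Fin 9), (u.map (gg (adj k 0) (rot k))).prod = g := by
  have h1 : ∀ σ : Equiv.Perm (Fin (k + 1)), (σ, (1 : DihedralGroup 3)) ∈ rg k := by
    intro σ
    have hσ : σ ∈ Submonoid.closure (Set.range fun i : Fin k => Equiv.swap i.castSucc i.succ) := by
      rw [Equiv.Perm.mclosure_swap_castSucc_succ k]; trivial
    have hle : Submonoid.closure (Set.range fun i : Fin k => Equiv.swap i.castSucc i.succ) ≤
        (rg k).comap (MonoidHom.inl (Equiv.Perm (Fin (k + 1))) (DihedralGroup 3)) := by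
      rw [Submonoid.closure_le]
      rintro _ ⟨i, rfl⟩
      have : adj k i = Equiv.swap i.castSucc i.succ := by
        unfold adj
        rw [dif_pos i.2]
        rfl
      show (Equiv.swap i.castSucc i.succ, (1 : DihedralGroup 3)) ∈ rg k
      rw [← this]
      exact ⟨Wd i, Wd_gg i.2⟩
    exact hle hσ
  have h2 : ∀ f : DihedralGroup 3, ((1 : Equiv.Perm (Fin (k + 1))), f) ∈ rg k := by
    intro f
    have e0 : ((1 : Equiv.Perm (Fin (k + 1))), (sr 0 : DihedralGroup 3)) ∈ rg k :=
      ⟨[0], by rw [List.map_cons, List.map_nil, List.prod_singleton]; rfl⟩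
    have e1 : ((1 : Equiv.Perm (Fin (k + 1))), (sr 1 : DihedralGroup 3)) ∈ rg k :=
      ⟨[1], by rw [List.map_cons, List.map_nil, List.prod_singleton]; rfl⟩
    have key : ∀ x y : DihedralGroup 3, ((1 : Equiv.Perm (Fin (k + 1))), x) ∈ rg k →
        ((1 : Equiv.Perm (Fin (k + 1))), y) ∈ rg k →
        ((1 : Equiv.Perm (Fin (k + 1))), x * y) ∈ rg k := by
      intro x y hx hy
      have := (rg k).mul_mem hx hy
      rwa [Prod.mk_mul_mk, one_mul] at this
    have hf : f = 1 ∨ f = sr 0 ∨ f = sr 1 ∨ f = sr 0 * sr 1 ∨ f = sr 1 * sr 0 ∨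
        f = sr 0 * sr 1 * sr 0 := by revert f; decide
    rcases hf with rfl | rfl | rfl | rfl | rfl | rfl
    · exact (rg k).one_mem
    · exact e0
    · exact e1
    · exact key _ _ e0 e1
    · exact key _ _ e1 e0
    · exact key _ _ (key _ _ e0 e1) e0
  have h3 := (rg k).mul_mem (h1 g.1) (h2 g.2)
  rw [Prod.mk_mul_mk, one_mul, mul_one] at h3
  exact h3

/-- the system for the symmetric group -/
def SS {k : ℕ} (hk : 4 ≤ k) : CS (Equiv.Perm (Fin (k + 1)) × DihedralGroup 3) 9 :=
  (genSym hk).toCS (all_rg (by omega))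

lemma SS_rigid {k : ℕ} (hk : 4 ≤ k) : Rigid (SS hk) := (genSym hk).rigid (all_rg (by omega))

section act

variable {W : Type} {H : SimpleGraph W}

lemma free_action {k r : ℕ} (hk : 4 ≤ k) (hr : 6 * k + 20 ≤ r) (a : Act (SS hk) H r) :
    ∃ π : Equiv.Perm (Fin (k + 1)) →* Equiv.Perm W, ∀ σ w, π σ w = w → σ = 1 := by
  have rel : ∀ u v : List (Fin 9), u.length ≤ r → v.length ≤ r →
      (u.map (gg (adj k 0) (rot k))).prod = (v.map (gg (adj k 0) (rot k))).prod →
      (u.map a.P).prod = (v.map a.P).prod := a.rel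
  have free : ∀ (u : List (Fin 9)) (w : W), u.length ≤ r → (u.map a.P).prod w = w →
      (u.map (gg (adj k 0) (rot k))).prod = 1 := a.free
  have e6 : a.P 6 = (a.P 3)⁻¹ := by
    have := rel [6, 3] [] (by simp; omega) (by simp) (by
      rw [List.map_cons, List.map_cons, List.map_nil, List.prod_cons, List.prod_singleton, gg_inv,
        inv_mul_cancel]
      rfl)
    rw [eq_inv_iff_mul_eq_one]
    simpa using this
  have hc := adj_cox k
  have cox : Cox (fun i => ((Wd i).map a.P).prod) k := by
    refine ⟨?_, ?_, ?_⟩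
    · intro i hi
      have := rel (Wd i ++ Wd i) [] (by rw [List.length_append, Wd_length]; omega) (by simp) (by
        rw [List.map_append, List.prod_append, Wd_gg hi, Prod.mk_mul_mk, hc.sq i hi, one_mul]
        rfl)
      rw [List.map_append, List.prod_append] at this
      exact this
    · intro i hi
      have := rel (Wd i ++ Wd (i + 1) ++ Wd i) (Wd (i + 1) ++ Wd i ++ Wd (i + 1))
        (by simp only [List.length_append, Wd_length]; omega)
        (by simp only [List.length_append, Wd_length]; omega) (by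
        simp only [List.map_append, List.prod_append]
        rw [Wd_gg hi, Wd_gg (by omega : i < k)]
        simp only [Prod.mk_mul_mk]
        rw [hc.br i hi])
      simp only [List.map_append, List.prod_append] at this
      exact this
    · intro i j hij hj
      have := rel (Wd i ++ Wd j) (Wd j ++ Wd i)
        (by simp only [List.length_append, Wd_length]; omega)
        (by simp only [List.length_append, Wd_length]; omega) (by
        simp only [List.map_append, List.prod_append]
        rw [Wd_gg hj, Wd_gg (by omega : i < k)]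
        simp only [Prod.mk_mul_mk]
        rw [hc.cm i j hij hj])
      simp only [List.map_append, List.prod_append] at this
      exact this
  obtain ⟨π, hπ⟩ := exists_hom cox
  refine ⟨π, ?_⟩
  intro σ w hσ
  obtain ⟨τ, ε, hτ⟩ := conj_form k σ
  have h1 : π (pr (adj k) ε k) = pr (fun i => ((Wd i).map a.P).prod) ε k := pr_map π hπ ε
  have h2 : π (pr (adj k) ε k) (π τ w) = π τ w := by
    rw [← hτ, map_mul, map_mul, map_inv, Equiv.Perm.mul_apply, Equiv.Perm.mul_apply]
    have h8 : (π τ)⁻¹ (π τ w) = w := Equiv.symm_apply_apply (π τ) w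
    rw [h8, hσ]
  have h3 : ((Ud ε k ++ List.replicate k 6).map a.P).prod =
      pr (fun i => ((Wd i).map a.P).prod) ε k := by
    rw [List.map_append, List.prod_append, Ud_prod a.P e6, List.map_replicate,
      List.prod_replicate, e6, inv_pow, mul_inv_cancel_right]
  have h4 := free (Ud ε k ++ List.replicate k 6) (π τ w) (by
    have := Ud_length ε k
    rw [List.length_append, List.length_replicate]; omega) (by rw [h3, ← h1, h2])
  rw [List.map_append, List.prod_append, Ud_prod _ gg_inv, List.map_replicate,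
    List.prod_replicate, gg_inv, inv_pow, mul_inv_cancel_right] at h4
  have h5 : pr (adj k) ε k = 1 := by
    have h6 := pr_map (MonoidHom.fst (Equiv.Perm (Fin (k + 1))) (DihedralGroup 3))
      (s := fun i => ((Wd i).map (gg (adj k 0) (rot k))).prod) (s' := adj k) (m := k)
      (fun i hi => by
        show (((Wd i).map (gg (adj k 0) (rot k))).prod).1 = adj k i
        rw [Wd_gg hi]) ε
    rw [h4, map_one] at h6
    exact h6.symm
  rw [h5] at hτ
  have h7 : τ * σ = τ := by rw [mul_inv_eq_iff_eq_mul, one_mul] at hτ; exact hτ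
  exact mul_eq_left.1 h7

/-- vertices reached by words of bounded length -/
def Xs (P : Fin 9 → Equiv.Perm W) (w : W) (D : ℕ) : Set W :=
  {v | ∃ u : List (Fin 9), u.length ≤ D ∧ (u.map P).prod w = v}

lemma Xs_card (P : Fin 9 → Equiv.Perm W) (w : W) (D : ℕ) :
    (Xs P w D).Finite ∧ (Xs P w D).ncard ≤ 10 ^ D := by
  induction D with
  | zero =>
    have : Xs P w 0 ⊆ {w} := by
      rintro v ⟨u, hu, rfl⟩
      have : u = [] := List.length_eq_zero_iff.1 (by omega)
      rw [this]; rfl
    refine ⟨(Set.finite_singleton w).subset this, ?_⟩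
    exact (Set.ncard_le_ncard this (Set.finite_singleton w)).trans (by rw [Set.ncard_singleton]; simp)
  | succ D ih =>
    obtain ⟨h1, h2⟩ := ih
    have hsub : Xs P w (D + 1) ⊆ Xs P w D ∪ ⋃ i ∈ (Finset.univ : Finset (Fin 9)), P i '' Xs P w D := by
      rintro v ⟨u, hu, rfl⟩
      cases u with
      | nil => exact Or.inl ⟨[], Nat.zero_le _, rfl⟩
      | cons i u =>
        right
        rw [Set.mem_iUnion₂]
        refine ⟨i, Finset.mem_univ i, _, ⟨u, ?_, rfl⟩, ?_⟩
        · rw [List.length_cons] at hu; omega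
        · rw [List.map_cons, List.prod_cons, Equiv.Perm.mul_apply]
    have hU : (⋃ i ∈ (Finset.univ : Finset (Fin 9)), P i '' Xs P w D).Finite :=
      Set.Finite.biUnion (Finset.finite_toSet _) (fun i _ => h1.image _)
    have hfin := h1.union hU
    refine ⟨hfin.subset hsub, (Set.ncard_le_ncard hsub hfin).trans ?_⟩
    refine (Set.ncard_union_le _ _).trans ?_
    have h3 : ∀ t : Finset (Fin 9), (⋃ i ∈ t, P i '' Xs P w D).ncard ≤ t.card * 10 ^ D := by
      intro t
      induction t using Finset.induction_on with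
      | empty => simp
      | insert i t hi iht =>
        rw [Finset.set_biUnion_insert, Finset.card_insert_of_notMem hi, add_mul, one_mul]
        refine (Set.ncard_union_le _ _).trans ?_
        have h5 := (Set.ncard_image_le (f := P i) h1).trans h2
        have h6 := Nat.add_le_add iht h5
        rw [add_comm]
        exact h6
    have h4 := h3 Finset.univ
    rw [Finset.card_univ, Fintype.card_fin] at h4
    rw [pow_succ]
    omega

lemma factorial_le {k r D : ℕ} (hk : 4 ≤ k) (hr : 6 * k + 20 ≤ r) (hH : H.Connected)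
    (hB : ∀ w, ∃ f, BM (SS hk).Cay 1 H w r f) (hD : H.ediam ≤ D) :
    (k + 1).factorial ≤ 10 ^ D := by
  classical
  obtain ⟨a⟩ := exists_act hH (SS_rigid hk) (by omega) hB
  obtain ⟨π, hπ⟩ := free_action hk hr a
  obtain ⟨w⟩ := hH.nonempty
  have huniv : Xs a.P w D = Set.univ := by
    rw [Set.eq_univ_iff_forall]
    intro v
    obtain ⟨p, hp⟩ := hH.exists_walk_length_eq_dist w v
    obtain ⟨u, h1, h2⟩ := a.walk_word p
    refine ⟨u, ?_, h2⟩
    rw [h1, hp]
    have h3 : H.edist w v ≤ D := SimpleGraph.edist_le_ediam.trans hD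
    rw [← (hH w v).coe_dist_eq_edist] at h3
    exact_mod_cast h3
  obtain ⟨h1, h2⟩ := Xs_card a.P w D
  rw [huniv] at h1 h2
  have hfin : Finite W := Set.finite_univ_iff.1 h1
  rw [Set.ncard_univ] at h2
  have hinj : Function.Injective (fun σ : Equiv.Perm (Fin (k + 1)) => π σ w) := by
    intro σ τ hστ
    have h3 : π (τ⁻¹ * σ) w = w := by
      rw [map_mul, map_inv, Equiv.Perm.mul_apply]
      have h4 : π σ w = π τ w := hστ
      rw [h4]
      exact Equiv.symm_apply_apply (π τ) w
    exact (inv_mul_eq_one.1 (hπ _ _ h3)).symm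
  have h3 := Nat.card_le_card_of_injective _ hinj
  rw [Nat.card_eq_fintype_card, Fintype.card_perm, Fintype.card_fin] at h3
  exact h3.trans h2

end act

lemma exists_k (C R : ℕ) : ∃ k, 4 ≤ k ∧ R ≤ k ∧ 10 ^ (C * (6 * k + 20)) < (k + 1).factorial := by
  set X := 10 ^ (C * 26) with hX
  have hXpos : 0 < X := Nat.pos_of_ne_zero (by rw [hX]; positivity)
  refine ⟨(X * X + R + 4) + (X * X + R + 4), by omega, by omega, ?_⟩
  set m := X * X + R + 4 with hm
  have h1 : 10 ^ (C * (6 * (m + m) + 20)) ≤ X ^ (m + m) := by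
    rw [hX, ← pow_mul]
    apply Nat.pow_le_pow_right (by norm_num)
    have : 6 * (m + m) + 20 ≤ 26 * (m + m) := by omega
    calc C * (6 * (m + m) + 20) ≤ C * (26 * (m + m)) := Nat.mul_le_mul_left _ this
      _ = C * 26 * (m + m) := by ring
  have h2 : X ^ (m + m) ≤ m.factorial * (m + 1) ^ m := by
    have h3 : X * X ≤ m + 1 := by omega
    calc X ^ (m + m) = (X * X) ^ m := by rw [pow_add, mul_pow]
      _ ≤ (m + 1) ^ m := Nat.pow_le_pow_left h3 m
      _ ≤ m.factorial * (m + 1) ^ m := Nat.le_mul_of_pos_left _ (Nat.factorial_pos m)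
  have h3 := Nat.factorial_mul_pow_le_factorial (m := m) (n := m)
  have h4 : (m + m).factorial < (m + m + 1).factorial :=
    Nat.factorial_lt_of_lt (by omega) (by omega)
  exact lt_of_le_of_lt (h1.trans (h2.trans h3)) h4


/-- a rooted graph -/
structure RootedGraph where
  V : Type
  G : SimpleGraph V
  root : V

/-- isomorphism of rooted graphs -/
def RootedGraph.Iso (A B : RootedGraph) : Prop := ∃ φ : A.G ≃g B.G, φ A.root = B.root

/-- the `r`-ball of `H` about `v`: the subgraph induced on the vertices at distance at most `r`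
from `v`, rooted at `v` -/
def ball {V : Type} (H : SimpleGraph V) (v : V) (r : ℕ) : RootedGraph where
  V := ballSet H v r
  G := H.induce (ballSet H v r)
  root := ⟨v, root_mem H v r⟩

/-- every `r`-ball of `H` is isomorphic to `B` -/
def AllBalls {W : Type} (H : SimpleGraph W) (r : ℕ) (B : RootedGraph) : Prop :=
  ∀ v : W, (ball H v r).Iso B

/-- `(B, r)` is realizable -/
def Realizable (B : RootedGraph) (r : ℕ) : Prop :=
  ∃ (W : Type) (_ : Finite W) (H : SimpleGraph W), H.Connected ∧ AllBalls H r B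

/-- `D(B, r)`, the least diameter of a connected graph all of whose `r`-balls are isomorphic
to `B` (infinite graphs have diameter `⊤`) -/
noncomputable def D (B : RootedGraph) (r : ℕ) : ℕ∞ :=
  sInf {d : ℕ∞ | ∃ (W : Type) (H : SimpleGraph W), H.Connected ∧ AllBalls H r B ∧ d = H.ediam}

/-- degree of the root -/
noncomputable def rootDegree (B : RootedGraph) : ℕ := (B.G.neighborSet B.root).ncard

/-- `M_d(r)`, the maximum of `D(B, r)` over the realizable pairs with root degree `d` -/
noncomputable def M (d r : ℕ) : ℕ∞ :=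
  sSup {x : ℕ∞ | ∃ B : RootedGraph, Realizable B r ∧ rootDegree B = d ∧ x = D B r}

lemma RootedGraph.Iso.symm {A B : RootedGraph} (h : A.Iso B) : B.Iso A := by
  obtain ⟨φ, hφ⟩ := h
  exact ⟨φ.symm, by rw [← hφ, RelIso.symm_apply_apply]⟩

/-- sanity: `D(B, r)` is finite for realizable pairs -/
lemma D_lt_top {B : RootedGraph} {r : ℕ} (h : Realizable B r) : D B r < ⊤ := by
  obtain ⟨W, hW, H, hH, hB⟩ := h
  refine lt_of_le_of_lt (sInf_le ⟨W, H, hH, hB, rfl⟩) ?_
  have hne : Nonempty W := hH.nonempty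
  exact lt_top_iff_ne_top.2 (SimpleGraph.connected_iff_ediam_ne_top.1 hH)

lemma sameBall_of_iso {V W : Type} {G : SimpleGraph V} {v : V} {H : SimpleGraph W} {w : W}
    {r : ℕ} (h : (ball G v r).Iso (ball H w r)) : SameBall G v H w r := h

lemma allBalls_CS {A : Type} [Group A] {n : ℕ} (S : CS A n) (r : ℕ) :
    AllBalls S.Cay r (ball S.Cay 1 r) := by
  intro v
  obtain ⟨ψ, hψ⟩ := S.trans 1 v
  have h0 : BM S.Cay 1 S.Cay 1 r id :=
    ⟨rfl, fun _ _ _ _ => Iff.rfl, fun _ _ _ _ h => h, fun _ h => h, fun y hy => ⟨y, hy, rfl⟩⟩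
  have e0 : ∀ x, (RelIso.refl S.Cay.Adj : S.Cay ≃g S.Cay) x = x := fun _ => rfl
  have h1 := h0.transport (RelIso.refl S.Cay.Adj) ψ
  rw [e0, hψ] at h1
  have h2 : (ball S.Cay 1 r).Iso (ball S.Cay v r) := h1.sameBall
  exact h2.symm

lemma rootDegree_CS {A : Type} [Group A] {n : ℕ} (S : CS A n) {r : ℕ} (hr : 1 ≤ r) :
    rootDegree (ball S.Cay 1 r) = n := by
  have hd : ∀ i, S.gen i ∈ ballSet S.Cay 1 r := by
    intro i
    have h1 := S.dist_gen_mul i 1
    rw [mul_one, SimpleGraph.dist_self] at h1
    show S.Cay.dist 1 (S.gen i) ≤ r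
    omega
  have hset : (ball S.Cay 1 r).G.neighborSet (ball S.Cay 1 r).root =
      Set.range (fun i : Fin n => (⟨S.gen i, hd i⟩ : ballSet S.Cay 1 r)) := by
    ext ⟨x, hx⟩
    constructor
    · intro h
      have h1 : S.Cay.Adj 1 x := h
      obtain ⟨i, hi⟩ := h1
      refine ⟨i, Subtype.ext ?_⟩
      rw [mul_one] at hi
      exact hi.symm
    · rintro ⟨i, hi⟩
      have h1 : S.gen i = x := congrArg Subtype.val hi
      show S.Cay.Adj 1 x
      exact ⟨i, by rw [mul_one, h1]⟩
  show ((ball S.Cay 1 r).G.neighborSet (ball S.Cay 1 r).root).ncard = n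
  rw [hset]
  have hinj : Function.Injective (fun i : Fin n => (⟨S.gen i, hd i⟩ : ballSet S.Cay 1 r)) := by
    intro i j hij
    exact S.inj (congrArg Subtype.val hij)
  rw [← Set.image_univ]
  have := Set.ncard_image_of_injective Set.univ hinj
  rw [Set.ncard_univ, Nat.card_eq_fintype_card, Fintype.card_fin] at this
  exact this

/-- There is a root degree `d` (namely `9`) such that the limit superior of `M_d(r) / r` is
infinite: for every constant `C` there are arbitrarily large `r` with `M_d(r) > C r`, witnessed by a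
realizable pair `(B, r)` with root degree `d` and `C r < D(B, r) < ∞`. -/
theorem result : ∃ d : ℕ, 1 ≤ d ∧ ∀ C R : ℕ, ∃ r : ℕ, R ≤ r ∧ 1 ≤ r ∧
    ((C * r : ℕ) : ℕ∞) < M d r ∧
    ∃ B : RootedGraph, Realizable B r ∧ rootDegree B = d ∧ ((C * r : ℕ) : ℕ∞) < D B r ∧
      D B r < ⊤ := by
  refine ⟨9, by omega, fun C R => ?_⟩
  obtain ⟨k, hk, hR, hfac⟩ := exists_k C R
  refine ⟨6 * k + 20, by omega, by omega, ?_⟩
  have hreal : Realizable (ball (SS hk).Cay 1 (6 * k + 20)) (6 * k + 20) :=
    ⟨_, inferInstance, (SS hk).Cay, (SS hk).conn, allBalls_CS _ _⟩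
  have hdeg : rootDegree (ball (SS hk).Cay 1 (6 * k + 20)) = 9 := rootDegree_CS _ (by omega)
  have key : ((C * (6 * k + 20) + 1 : ℕ) : ℕ∞) ≤ D (ball (SS hk).Cay 1 (6 * k + 20)) (6 * k + 20) := by
    apply le_sInf
    rintro _ ⟨W, H, hH, hB, rfl⟩
    by_contra hcon
    rw [not_le] at hcon
    have hD : H.ediam ≤ ((C * (6 * k + 20) : ℕ) : ℕ∞) := by
      have : ((C * (6 * k + 20) + 1 : ℕ) : ℕ∞) = ((C * (6 * k + 20) : ℕ) : ℕ∞) + 1 := by
        push_cast; rfl
      rw [this] at hcon
      exact (ENat.lt_add_one_iff (ENat.natCast_ne_top _)).1 hcon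
    have hB' : ∀ w, ∃ f, BM (SS hk).Cay 1 H w (6 * k + 20) f := fun w =>
      (sameBall_of_iso (hB w).symm).exists_map
    exact absurd (factorial_le hk le_rfl hH hB' hD) (not_le.2 hfac)
  have key2 : ((C * (6 * k + 20) : ℕ) : ℕ∞) < D (ball (SS hk).Cay 1 (6 * k + 20)) (6 * k + 20) := by
    refine lt_of_lt_of_le ?_ key
    exact_mod_cast Nat.lt_succ_self _
  exact ⟨lt_of_lt_of_le key2 (le_sSup ⟨_, hreal, hdeg, rfl⟩), _, hreal, hdeg, key2, D_lt_top hreal⟩


end Pool.Agent.Results.MP_fed0c4_co.Superlinear
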